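import Pool.Agent.R489.HB.Stm

/-!
# Euler's formula for triangulated spheres in the homological sense
-/

set_option autoImplicit false

namespace Pool.Agent.R474.HB

open Finset Pool.Agent.R489.HB

section

variable {W : Type} [DecidableEq W]

theorem mem_edg {Φ : Finset (Finset W)} {e : Finset W} :
    e ∈ edg Φ ↔ ∃ f ∈ Φ, e ⊆ f ∧ e.card = 2 := by
  simp [edg, mem_biUnion, mem_powersetCard]

theorem mem_vts {Φ : Finset (Finset W)} {v : W} : v ∈ vts Φ ↔ ∃ f ∈ Φ, v ∈ f := by
  simp [vts]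

theorem zmod2 (y : ZMod 2) : y = 0 ∨ y = 1 := by
  revert y
  decide

/-- sums over a subtype with values in `ZMod 2` count -/
theorem sum_eq_card {α : Type} [DecidableEq α] (s : Finset α) (x : {a // a ∈ s} → ZMod 2)
    (p : α → Prop) [DecidablePred p] :
    (∑ a : {a // a ∈ s}, if p a.1 then x a else 0) =
      ((((univ.filter (fun a => x a = 1)).map (Function.Embedding.subtype _)).filter p).card :
        ZMod 2) := by
  rw [Finset.filter_map, Finset.card_map, Finset.filter_filter, Finset.card_eq_sum_ones,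
    Nat.cast_sum, Finset.sum_filter]
  refine Finset.sum_congr rfl fun a _ => ?_
  rcases zmod2 (x a) with h | h <;> simp [h]

/-- edges of a triangle at one of its vertices -/
theorem card_edges_at {f : Finset W} (hf : f.card = 3) {v : W} (hv : v ∈ f) :
    ((f.powersetCard 2).filter (fun e => v ∈ e)).card = 2 := by
  have h1 : (f.powersetCard 2).filter (fun e => v ∈ e) = (f.erase v).image (fun w => {v, w}) := by
    ext e
    simp only [mem_filter, mem_powersetCard, mem_image, mem_erase]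
    constructor
    · rintro ⟨⟨h1, h2⟩, h3⟩
      obtain ⟨a, b, hab, rfl⟩ := card_eq_two.1 h2
      simp only [mem_insert, mem_singleton] at h3
      rcases h3 with rfl | rfl
      · exact ⟨b, ⟨fun h => hab h.symm, h1 (by simp)⟩, rfl⟩
      · exact ⟨a, ⟨hab, h1 (by simp)⟩, Finset.pair_comm _ _⟩
    · rintro ⟨w, ⟨h1, h2⟩, rfl⟩
      refine ⟨⟨?_, card_pair (Ne.symm h1)⟩, by simp⟩
      intro x hx
      simp only [mem_insert, mem_singleton] at hx
      rcases hx with rfl | rfl
      · exact hv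
      · exact h2
  rw [h1, card_image_of_injOn, card_erase_of_mem hv, hf]
  intro a ha b hb hab
  simp only [coe_erase, Set.mem_sdiff, mem_coe, Set.mem_singleton_iff] at ha hb
  have h2 : a ∈ ({v, b} : Finset W) := by
    have h3 : a ∈ ({v, a} : Finset W) := by simp
    have h4 : ({v, a} : Finset W) = {v, b} := hab
    rw [← h4]
    exact h3
  simp only [mem_insert, mem_singleton] at h2
  rcases h2 with h2 | h2
  · exact absurd h2 ha.2
  · exact h2

theorem finrank_one {ι : Type} [Finite ι] [Nonempty ι] (S : Submodule (ZMod 2) (ι → ZMod 2))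
    (h1 : (1 : ι → ZMod 2) ∈ S) (h2 : ∀ x ∈ S, x = 0 ∨ x = 1) :
    Module.finrank (ZMod 2) S = 1 := by
  rw [finrank_eq_one_iff']
  refine ⟨⟨1, h1⟩, ?_, ?_⟩
  · intro h
    have h3 := congrArg (fun z : S => z.1) h
    simp at h3
  · rintro ⟨x, hx⟩
    rcases h2 x hx with rfl | rfl
    · exact ⟨0, by ext; simp⟩
    · exact ⟨1, by ext; simp⟩

/-- edges against triangles -/
def M2 (Φ : Finset (Finset W)) : Matrix {e // e ∈ edg Φ} {f // f ∈ Φ} (ZMod 2) :=
  fun e f => if e.1 ⊆ f.1 then 1 else 0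

/-- vertices against edges -/
def M1 (Φ : Finset (Finset W)) : Matrix {v // v ∈ vts Φ} {e // e ∈ edg Φ} (ZMod 2) :=
  fun v e => if v.1 ∈ e.1 then 1 else 0

/-- the set of a vector -/
def st {α : Type} (s : Finset α) (x : {a // a ∈ s} → ZMod 2) : Finset α :=
  (univ.filter (fun a => x a = 1)).map (Function.Embedding.subtype _)

theorem mem_st {α : Type} (s : Finset α) (x : {a // a ∈ s} → ZMod 2) (a : α) :
    a ∈ st s x ↔ ∃ h : a ∈ s, x ⟨a, h⟩ = 1 := by
  simp [st]

theorem st_sub {α : Type} (s : Finset α) (x : {a // a ∈ s} → ZMod 2) : st s x ⊆ s := by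
  intro a ha
  obtain ⟨h, _⟩ := (mem_st s x a).1 ha
  exact h

theorem M2_apply (Φ : Finset (Finset W)) (x : {f // f ∈ Φ} → ZMod 2) (e : {e // e ∈ edg Φ}) :
    (M2 Φ).mulVecLin x e = ((fc (st Φ x) e.1).card : ZMod 2) := by
  rw [Matrix.mulVecLin_apply]
  unfold fc st
  rw [← sum_eq_card Φ x (fun f => e.1 ⊆ f)]
  simp only [Matrix.mulVec, dotProduct, M2]
  refine Finset.sum_congr rfl fun f _ => ?_
  split_ifs <;> simp

theorem M1_apply (Φ : Finset (Finset W)) (z : {e // e ∈ edg Φ} → ZMod 2)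
    (v : {v // v ∈ vts Φ}) :
    (M1 Φ).mulVecLin z v = (((st (edg Φ) z).filter (fun e => v.1 ∈ e)).card : ZMod 2) := by
  rw [Matrix.mulVecLin_apply]
  unfold st
  rw [← sum_eq_card (edg Φ) z (fun e => v.1 ∈ e)]
  simp only [Matrix.mulVec, dotProduct, M1]
  refine Finset.sum_congr rfl fun f _ => ?_
  split_ifs <;> simp

theorem M1T_apply (Φ : Finset (Finset W)) (g : {v // v ∈ vts Φ} → ZMod 2)
    (e : {e // e ∈ edg Φ}) :
    (M1 Φ).transpose.mulVecLin g e = (((st (vts Φ) g).filter (fun v => v ∈ e.1)).card : ZMod 2) := by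
  rw [Matrix.mulVecLin_apply]
  unfold st
  rw [← sum_eq_card (vts Φ) g (fun v => v ∈ e.1)]
  simp only [Matrix.mulVec, dotProduct, M1, Matrix.transpose_apply]
  refine Finset.sum_congr rfl fun f _ => ?_
  split_ifs <;> simp

theorem ker2 {Φ : Finset (Finset W)} (h : IsTri Φ) :
    Module.finrank (ZMod 2) (LinearMap.ker (M2 Φ).mulVecLin) = 1 := by
  have : Nonempty {f // f ∈ Φ} := by
    obtain ⟨f, hf⟩ := h.ne
    exact ⟨⟨f, hf⟩⟩
  have key : ∀ x : {f // f ∈ Φ} → ZMod 2, x ∈ LinearMap.ker (M2 Φ).mulVecLin ↔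
      ∀ e ∈ edg Φ, Even (fc (st Φ x) e).card := by
    intro x
    rw [LinearMap.mem_ker]
    constructor
    · intro hx e he
      have h1 := congrFun hx ⟨e, he⟩
      rw [M2_apply] at h1
      exact (ZMod.natCast_eq_zero_iff_even).1 h1
    · intro hx
      funext e
      rw [M2_apply]
      exact (ZMod.natCast_eq_zero_iff_even).2 (hx e.1 e.2)
  apply finrank_one
  · rw [key]
    intro e he
    have h1 : st Φ 1 = Φ := by
      ext f
      rw [mem_st]
      simp
    rw [h1, h.two e he]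
    exact even_two
  · intro x hx
    rw [key] at hx
    rcases h.conn (st Φ x) (st_sub Φ x) hx with h1 | h1
    · left
      funext f
      rcases zmod2 (x f) with h2 | h2
      · exact h2
      · exfalso
        have h3 : f.1 ∈ st Φ x := (mem_st Φ x f.1).2 ⟨f.2, h2⟩
        rw [h1] at h3
        exact absurd h3 (notMem_empty _)
    · right
      funext f
      have h3 : f.1 ∈ st Φ x := by
        rw [h1]
        exact f.2
      obtain ⟨h4, h5⟩ := (mem_st Φ x f.1).1 h3
      exact h5

theorem ker1T {Φ : Finset (Finset W)} (h : IsTri Φ) :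
    Module.finrank (ZMod 2) (LinearMap.ker (M1 Φ).transpose.mulVecLin) = 1 := by
  have : Nonempty {v // v ∈ vts Φ} := by
    obtain ⟨f, hf⟩ := h.ne
    have h3 := h.three f hf
    obtain ⟨v, hv⟩ := card_pos.1 (by rw [h3]; norm_num : 0 < f.card)
    exact ⟨⟨v, mem_vts.2 ⟨f, hf, hv⟩⟩⟩
  have key : ∀ g : {v // v ∈ vts Φ} → ZMod 2, g ∈ LinearMap.ker (M1 Φ).transpose.mulVecLin ↔
      ∀ e ∈ edg Φ, Even ((st (vts Φ) g).filter (fun v => v ∈ e)).card := by
    intro g
    rw [LinearMap.mem_ker]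
    constructor
    · intro hx e he
      have h1 := congrFun hx ⟨e, he⟩
      rw [M1T_apply] at h1
      exact (ZMod.natCast_eq_zero_iff_even).1 h1
    · intro hx
      funext e
      rw [M1T_apply]
      exact (ZMod.natCast_eq_zero_iff_even).2 (hx e.1 e.2)
  have hin : ∀ e ∈ edg Φ, e ⊆ vts Φ := by
    intro e he x hx
    obtain ⟨f, h1, h2, _⟩ := mem_edg.1 he
    exact mem_vts.2 ⟨f, h1, h2 hx⟩
  apply finrank_one
  · rw [key]
    intro e he
    have h1 : (st (vts Φ) 1).filter (fun v => v ∈ e) = e := by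
      ext f
      rw [mem_filter, mem_st]
      simp only [Pi.one_apply, exists_prop, and_true]
      exact ⟨fun h => h.2, fun h => ⟨hin e he h, h⟩⟩
    obtain ⟨f, _, _, h4⟩ := mem_edg.1 he
    rw [h1, h4]
    exact even_two
  · intro g hg
    rw [key] at hg
    -- the set of the vertices with value one
    set S := st (vts Φ) g with hS
    have hpair : ∀ x y : W, x ≠ y → {x, y} ∈ edg Φ → (x ∈ S ↔ y ∈ S) := by
      intro x y hxy he
      have h1 := hg _ he
      have h2 : S.filter (fun v => v ∈ ({x, y} : Finset W)) =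
          ({x, y} : Finset W).filter (fun v => v ∈ S) := by
        ext w
        simp only [mem_filter]
        exact and_comm
      rw [h2] at h1
      by_cases hx : x ∈ S
      · by_cases hy : y ∈ S
        · exact ⟨fun _ => hy, fun _ => hx⟩
        · exfalso
          rw [filter_insert, if_pos hx, filter_singleton, if_neg hy] at h1
          simp at h1
      · by_cases hy : y ∈ S
        · exfalso
          rw [filter_insert, if_neg hx, filter_singleton, if_pos hy] at h1
          simp at h1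
        · exact ⟨fun h => absurd h hx, fun h => absurd h hy⟩
    have hsub2 : ∀ f ∈ Φ, ∀ x ∈ f, ∀ y ∈ f, x ≠ y → {x, y} ∈ edg Φ := by
      intro f hf x hx y hy hxy
      refine mem_edg.2 ⟨f, hf, ?_, card_pair hxy⟩
      intro w hw
      simp only [mem_insert, mem_singleton] at hw
      rcases hw with rfl | rfl
      · exact hx
      · exact hy
    have hface : ∀ f ∈ Φ, ∀ x ∈ f, ∀ y ∈ f, (x ∈ S ↔ y ∈ S) := by
      intro f hf x hx y hy
      by_cases hxy : x = y
      · rw [hxy]
      · exact hpair x y hxy (hsub2 f hf x hx y hy hxy)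
    have hev : ∀ e ∈ edg Φ, Even (fc (Φ.filter (fun f => ∀ x ∈ f, x ∈ S)) e).card := by
      intro e he
      obtain ⟨f0, h1, h2, h3⟩ := mem_edg.1 he
      obtain ⟨a, b, hab, rfl⟩ := card_eq_two.1 h3
      by_cases ha : a ∈ S
      · have h4 : fc (Φ.filter (fun f => ∀ x ∈ f, x ∈ S)) {a, b} = fc Φ {a, b} := by
          ext f
          simp only [fc, mem_filter]
          constructor
          · rintro ⟨⟨h5, _⟩, h6⟩
            exact ⟨h5, h6⟩
          · rintro ⟨h5, h6⟩
            refine ⟨⟨h5, fun x hx => ?_⟩, h6⟩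
            exact (hface f h5 a (h6 (by simp)) x hx).1 ha
        rw [h4, h.two _ he]
        exact even_two
      · have h4 : fc (Φ.filter (fun f => ∀ x ∈ f, x ∈ S)) {a, b} = ∅ := by
          rw [eq_empty_iff_forall_notMem]
          intro f hf
          simp only [fc, mem_filter] at hf
          exact ha (hf.1.2 a (hf.2 (by simp)))
        rw [h4]
        simp
    rcases h.conn _ (filter_subset _ _) hev with h1 | h1
    · left
      funext v
      rcases zmod2 (g v) with h2 | h2
      · exact h2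
      · exfalso
        have h3 : v.1 ∈ S := (mem_st (vts Φ) g v.1).2 ⟨v.2, h2⟩
        obtain ⟨f, hf, hvf⟩ := mem_vts.1 v.2
        have h4 : f ∈ Φ.filter (fun f => ∀ x ∈ f, x ∈ S) :=
          mem_filter.2 ⟨hf, fun x hx => (hface f hf v.1 hvf x hx).1 h3⟩
        rw [h1] at h4
        exact absurd h4 (notMem_empty _)
    · right
      funext v
      obtain ⟨f, hf, hvf⟩ := mem_vts.1 v.2
      have h4 : f ∈ Φ.filter (fun f => ∀ x ∈ f, x ∈ S) := by
        rw [h1]
        exact hf
      obtain ⟨_, h5⟩ := (mem_st (vts Φ) g v.1).1 ((mem_filter.1 h4).2 v.1 hvf)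
      exact h5

theorem M12 {Φ : Finset (Finset W)} (h : IsTri Φ) : M1 Φ * M2 Φ = 0 := by
  ext v f
  rw [Matrix.mul_apply]
  simp only [M1, M2, Matrix.zero_apply]
  have h1 : ∀ e : {e // e ∈ edg Φ}, ((if v.1 ∈ e.1 then (1 : ZMod 2) else 0) *
      if e.1 ⊆ f.1 then (1 : ZMod 2) else 0) = if (v.1 ∈ e.1 ∧ e.1 ⊆ f.1) then 1 else 0 := by
    intro e
    by_cases h2 : v.1 ∈ e.1 <;> by_cases h3 : e.1 ⊆ f.1 <;> simp [h2, h3]
  rw [Finset.sum_congr rfl fun e _ => h1 e,
    Finset.sum_coe_sort (edg Φ) (fun e => if (v.1 ∈ e ∧ e ⊆ f.1) then (1 : ZMod 2) else 0),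
    Finset.sum_boole]
  have h2 : (edg Φ).filter (fun e => v.1 ∈ e ∧ e ⊆ f.1) =
      (f.1.powersetCard 2).filter (fun e => v.1 ∈ e) := by
    ext e
    simp only [mem_filter, mem_powersetCard]
    constructor
    · rintro ⟨h3, h4, h5⟩
      obtain ⟨_, _, _, h6⟩ := mem_edg.1 h3
      exact ⟨⟨h5, h6⟩, h4⟩
    · rintro ⟨⟨h5, h6⟩, h4⟩
      exact ⟨mem_edg.2 ⟨f.1, f.2, h5, h6⟩, h4, h5⟩
  rw [h2]
  by_cases hv : v.1 ∈ f.1
  · rw [card_edges_at (h.three f.1 f.2) hv]
    decide
  · have h3 : (f.1.powersetCard 2).filter (fun e => v.1 ∈ e) = ∅ := by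
      rw [eq_empty_iff_forall_notMem]
      intro e he
      obtain ⟨h4, h5⟩ := mem_filter.1 he
      exact hv ((mem_powersetCard.1 h4).1 h5)
    rw [h3]
    simp

theorem exact12 {Φ : Finset (Finset W)} (h : IsTri Φ) :
    LinearMap.ker (M1 Φ).mulVecLin = LinearMap.range (M2 Φ).mulVecLin := by
  apply le_antisymm
  · intro z hz
    rw [LinearMap.mem_ker] at hz
    have h1 : ∀ v : W, Even ((st (edg Φ) z).filter (fun e => v ∈ e)).card := by
      intro v
      by_cases hv : v ∈ vts Φ
      · have h2 := congrFun hz ⟨v, hv⟩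
        rw [M1_apply] at h2
        exact (ZMod.natCast_eq_zero_iff_even).1 h2
      · have h3 : (st (edg Φ) z).filter (fun e => v ∈ e) = ∅ := by
          rw [eq_empty_iff_forall_notMem]
          intro e he
          obtain ⟨h4, h5⟩ := mem_filter.1 he
          obtain ⟨f, h6, h7, _⟩ := mem_edg.1 (st_sub _ _ h4)
          exact hv (mem_vts.2 ⟨f, h6, h7 h5⟩)
        rw [h3]
        simp
    obtain ⟨Ψ, hΨ, h2⟩ := h.sph (st (edg Φ) z) (st_sub _ _) h1
    refine ⟨fun f => if f.1 ∈ Ψ then 1 else 0, ?_⟩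
    have h3 : st Φ (fun f => if f.1 ∈ Ψ then 1 else 0) = Ψ := by
      ext f
      rw [mem_st]
      constructor
      · rintro ⟨_, h4⟩
        by_contra h5
        simp [h5] at h4
      · intro h4
        exact ⟨hΨ h4, by simp [h4]⟩
    funext e
    rw [M2_apply, h3]
    rcases zmod2 (z e) with h4 | h4
    · rw [h4]
      refine ZMod.natCast_eq_zero_iff_even.2 ?_
      rw [← Nat.not_odd_iff_even]
      intro h5
      obtain ⟨h7, h6⟩ := (mem_st _ _ _).1 ((h2 e.1 e.2).2 h5)
      rw [show (⟨e.1, h7⟩ : {e // e ∈ edg Φ}) = e from rfl, h4] at h6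
      exact absurd h6 (by decide)
    · rw [h4]
      exact ZMod.natCast_eq_one_iff_odd.2 ((h2 e.1 e.2).1 ((mem_st _ _ _).2 ⟨e.2, h4⟩))
  · rintro _ ⟨x, rfl⟩
    rw [LinearMap.mem_ker, Matrix.mulVecLin_apply, Matrix.mulVecLin_apply, Matrix.mulVec_mulVec,
      M12 h, Matrix.zero_mulVec]

/-- three edges for each triangle, two triangles for each edge -/
theorem dbl {Φ : Finset (Finset W)} (h : IsTri Φ) : 3 * Φ.card = 2 * (edg Φ).card := by
  have h1 : ∑ f ∈ Φ, ((edg Φ).filter (fun e => e ⊆ f)).card =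
      ∑ e ∈ edg Φ, (Φ.filter (fun f => e ⊆ f)).card := by
    have := Finset.sum_card_bipartiteAbove_eq_sum_card_bipartiteBelow
      (s := Φ) (t := edg Φ) (fun (f e : Finset W) => e ⊆ f)
    exact this
  have h2 : ∑ f ∈ Φ, ((edg Φ).filter (fun e => e ⊆ f)).card = ∑ f ∈ Φ, 3 := by
    refine Finset.sum_congr rfl fun f hf => ?_
    have h3 : (edg Φ).filter (fun e => e ⊆ f) = f.powersetCard 2 := by
      ext e
      simp only [mem_filter, mem_powersetCard]
      constructor
      · rintro ⟨h4, h5⟩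
        obtain ⟨_, _, _, h6⟩ := mem_edg.1 h4
        exact ⟨h5, h6⟩
      · rintro ⟨h5, h6⟩
        exact ⟨mem_edg.2 ⟨f, hf, h5, h6⟩, h5⟩
    rw [h3, card_powersetCard, h.three f hf]
    rfl
  have h3 : ∑ e ∈ edg Φ, (Φ.filter (fun f => e ⊆ f)).card = ∑ e ∈ edg Φ, 2 :=
    Finset.sum_congr rfl fun e he => h.two e he
  rw [h2, h3, Finset.sum_const, Finset.sum_const, smul_eq_mul, smul_eq_mul] at h1
  omega

theorem euler {Φ : Finset (Finset W)} (h : IsTri Φ) :
    (edg Φ).card + 6 = 3 * (vts Φ).card := by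
  have r2 := LinearMap.finrank_range_add_finrank_ker (M2 Φ).mulVecLin
  have r1 := LinearMap.finrank_range_add_finrank_ker (M1 Φ).mulVecLin
  have r1t := LinearMap.finrank_range_add_finrank_ker (M1 Φ).transpose.mulVecLin
  have e1 : Module.finrank (ZMod 2) (LinearMap.range (M1 Φ).transpose.mulVecLin) =
      Module.finrank (ZMod 2) (LinearMap.range (M1 Φ).mulVecLin) := Matrix.rank_transpose (M1 Φ)
  rw [ker2 h, Module.finrank_fintype_fun_eq_card, Fintype.card_coe] at r2
  rw [exact12 h, Module.finrank_fintype_fun_eq_card, Fintype.card_coe] at r1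
  rw [ker1T h, Module.finrank_fintype_fun_eq_card, Fintype.card_coe, e1] at r1t
  have := dbl h
  omega

end

/-- Euler's formula -/
theorem EUL : S_EUL := fun _ _ _ h => euler h

end Pool.Agent.R474.HB
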